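import Mathlib

set_option autoImplicit false

/-! Gaussian integrals with a phase: lower bound of the real part (project EG, job LDS; helper76) -/

namespace Pool.Agent.V5helper76.EG.LdA

open Finset Filter MeasureTheory Topology Complex

lemma int_sq {b : ℝ} (hb : 0 < b) : Integrable (fun x : ℝ => x ^ 2 * Real.exp (-b * x ^ 2)) ∧
    ∫ x : ℝ, x ^ 2 * Real.exp (-b * x ^ 2) = Real.sqrt (Real.pi / b) / (2 * b) := by
  have h0 : Integrable (fun x : ℝ => x ^ 2 * Real.exp (-b * x ^ 2)) := by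
    have := integrable_rpow_mul_exp_neg_mul_sq hb (s := 2) (by norm_num)
    simpa using this
  refine ⟨h0, ?_⟩
  have h1 := _root_.integral_rpow_mul_exp_neg_mul_rpow (p := 2) (q := 2) (b := b) (by norm_num) (by norm_num) hb
  have h2 : ∫ x : ℝ, x ^ 2 * Real.exp (-b * x ^ 2) = 2 * ∫ x in Set.Ioi (0:ℝ), x ^ 2 * Real.exp (-b * x ^ 2) := by
    have := integral_comp_abs (f := fun x : ℝ => x ^ 2 * Real.exp (-b * x ^ 2))
    simpa using this
  rw [h2]
  have h3 : ∫ x in Set.Ioi (0:ℝ), x ^ 2 * Real.exp (-b * x ^ 2) =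
      b ^ (-((2:ℝ) + 1) / 2) * (1 / 2) * Real.Gamma (((2:ℝ) + 1) / 2) := by
    rw [← h1]
    refine setIntegral_congr_fun measurableSet_Ioi fun x hx => ?_
    simp
  rw [h3]
  have h4 : Real.Gamma (((2:ℝ) + 1) / 2) = Real.sqrt Real.pi / 2 := by
    have : ((2:ℝ) + 1) / 2 = 1 / 2 + 1 := by norm_num
    rw [this, Real.Gamma_add_one (by norm_num), Real.Gamma_one_half_eq]
    ring
  have h5 : b ^ (-((2:ℝ) + 1) / 2) = 1 / (b * Real.sqrt b) := by
    have : (-((2:ℝ) + 1) / 2) = -(1 + 1 / 2) := by norm_num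
    rw [this, Real.rpow_neg hb.le, Real.rpow_add hb, Real.rpow_one, ← Real.sqrt_eq_rpow, one_div]
  rw [h4, h5, Real.sqrt_div Real.pi_pos.le]
  have : 0 < Real.sqrt b := Real.sqrt_pos.2 hb
  field_simp

lemma int_abs {b : ℝ} (hb : 0 < b) : Integrable (fun x : ℝ => |x| * Real.exp (-b * x ^ 2)) ∧
    ∫ x : ℝ, |x| * Real.exp (-b * x ^ 2) = 1 / b := by
  have h0 : Integrable (fun x : ℝ => |x| * Real.exp (-b * x ^ 2)) := by
    have := (integrable_mul_exp_neg_mul_sq hb).norm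
    refine this.congr (Eventually.of_forall fun x => ?_)
    simp [abs_of_pos (Real.exp_pos _)]
  refine ⟨h0, ?_⟩
  have h2 : ∫ x : ℝ, |x| * Real.exp (-b * x ^ 2) = 2 * ∫ x in Set.Ioi (0:ℝ), x * Real.exp (-b * x ^ 2) := by
    have := integral_comp_abs (f := fun x : ℝ => x * Real.exp (-b * x ^ 2))
    simpa using this
  rw [h2]
  have h1 := _root_.integral_rpow_mul_exp_neg_mul_rpow (p := 2) (q := 1) (b := b) (by norm_num) (by norm_num) hb
  have h3 : ∫ x in Set.Ioi (0:ℝ), x * Real.exp (-b * x ^ 2) =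
      b ^ (-((1:ℝ) + 1) / 2) * (1 / 2) * Real.Gamma (((1:ℝ) + 1) / 2) := by
    rw [← h1]
    refine setIntegral_congr_fun measurableSet_Ioi fun x hx => ?_
    simp
  rw [h3]
  have h4 : ((1:ℝ) + 1) / 2 = 1 := by norm_num
  have h5 : (-((1:ℝ) + 1) / 2) = -1 := by norm_num
  rw [h4, h5, Real.Gamma_one, Real.rpow_neg_one]
  field_simp

theorem gauss_low {G : ℝ → ℂ} (hG : Continuous G) {R B ω S b : ℝ} (hR : 0 < R) (hb : 0 < b) (hB : 0 ≤ B)
    (hω : 0 ≤ ω) (hG0 : 0 ≤ (G 0).re) (hGb : ∀ ξ : ℝ, |ξ| ≤ R → ‖G ξ - G 0‖ ≤ ω + B * ξ ^ 2) :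
    Real.sqrt (Real.pi / b) * ((G 0).re * (1 - 1 / (2 * b * R ^ 2)) - ω - B / (2 * b) -
      ‖G 0‖ * |S| / Real.sqrt (Real.pi * b)) ≤
    (∫ ξ in Set.Icc (-R) R, G ξ * cexp (((ξ * S : ℝ) : ℂ) * I) * ((Real.exp (-b * ξ ^ 2) : ℝ) : ℂ)).re := by
  obtain ⟨i1, i1'⟩ := int_sq hb
  obtain ⟨i2, i2'⟩ := int_abs hb
  have i3 := integrable_exp_neg_mul_sq hb
  have i3' := integral_gaussian b
  set q := Real.sqrt (Real.pi / b) with hq
  have hq0 : 0 ≤ q := Real.sqrt_nonneg _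
  -- the integral of the constant
  have t1 : ∫ ξ in (Set.Icc (-R) R)ᶜ, Real.exp (-b * ξ ^ 2) ≤ q / (2 * b) / R ^ 2 := by
    calc ∫ ξ in (Set.Icc (-R) R)ᶜ, Real.exp (-b * ξ ^ 2) ≤
        ∫ ξ in (Set.Icc (-R) R)ᶜ, (ξ ^ 2 * Real.exp (-b * ξ ^ 2)) / R ^ 2 := by
          refine setIntegral_mono_on i3.integrableOn (i1.div_const _).integrableOn measurableSet_Icc.compl ?_
          intro ξ hξ
          have h1 : R < |ξ| := by
            by_contra h
            rw [not_lt] at h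
            exact hξ (abs_le.1 h)
          have h2 : R ^ 2 ≤ ξ ^ 2 := by
            rw [← sq_abs ξ]
            exact pow_le_pow_left₀ hR.le h1.le 2
          rw [le_div_iff₀ (by positivity), mul_comm]
          exact mul_le_mul_of_nonneg_right h2 (Real.exp_pos _).le
      _ ≤ ∫ ξ : ℝ, (ξ ^ 2 * Real.exp (-b * ξ ^ 2)) / R ^ 2 :=
          setIntegral_le_integral (i1.div_const _) (Eventually.of_forall fun ξ => by positivity)
      _ = _ := by rw [integral_div, i1']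
  have t2 : q - q / (2 * b) / R ^ 2 ≤ ∫ ξ in Set.Icc (-R) R, Real.exp (-b * ξ ^ 2) := by
    have := integral_add_compl (measurableSet_Icc (a := (-R)) (b := R)) i3
    rw [i3'] at this
    linarith
  have cE : Continuous fun ξ : ℝ => ((Real.exp (-b * ξ ^ 2) : ℝ) : ℂ) := by fun_prop
  have cP : Continuous fun ξ : ℝ => cexp (((ξ * S : ℝ) : ℂ) * I) := by fun_prop
  have j1 : IntegrableOn (fun ξ : ℝ => G ξ * cexp (((ξ * S : ℝ) : ℂ) * I) * ((Real.exp (-b * ξ ^ 2) : ℝ) : ℂ))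
      (Set.Icc (-R) R) := ((hG.mul cP).mul cE).integrableOn_Icc
  have j2 : IntegrableOn (fun ξ : ℝ => G 0 * ((Real.exp (-b * ξ ^ 2) : ℝ) : ℂ)) (Set.Icc (-R) R) :=
    (continuous_const.mul cE).integrableOn_Icc
  have t3 : ‖(∫ ξ in Set.Icc (-R) R, G ξ * cexp (((ξ * S : ℝ) : ℂ) * I) * ((Real.exp (-b * ξ ^ 2) : ℝ) : ℂ)) -
      ∫ ξ in Set.Icc (-R) R, G 0 * ((Real.exp (-b * ξ ^ 2) : ℝ) : ℂ)‖ ≤
      ω * q + B * (q / (2 * b)) + ‖G 0‖ * |S| * (1 / b) := by
    rw [← integral_sub j1 j2]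
    calc _ ≤ ∫ ξ in Set.Icc (-R) R, (ω * Real.exp (-b * ξ ^ 2) + B * (ξ ^ 2 * Real.exp (-b * ξ ^ 2)) +
          ‖G 0‖ * |S| * (|ξ| * Real.exp (-b * ξ ^ 2))) := by
          refine norm_integral_le_of_norm_le (((i3.const_mul ω).add (i1.const_mul B)).add
            (i2.const_mul (‖G 0‖ * |S|))).integrableOn ?_
          filter_upwards [ae_restrict_mem measurableSet_Icc] with ξ hξ
          have h1 := hGb ξ (abs_le.2 hξ)
          have h2 : ‖cexp (((ξ * S : ℝ) : ℂ) * I) - 1‖ ≤ |ξ| * |S| := by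
            have := Real.norm_exp_I_mul_ofReal_sub_one_le (x := ξ * S)
            rw [mul_comm I] at this
            rwa [Real.norm_eq_abs, abs_mul] at this
          have h3 : G ξ * cexp (((ξ * S : ℝ) : ℂ) * I) * ((Real.exp (-b * ξ ^ 2) : ℝ) : ℂ) -
              G 0 * ((Real.exp (-b * ξ ^ 2) : ℝ) : ℂ) =
              ((G ξ - G 0) * cexp (((ξ * S : ℝ) : ℂ) * I) + G 0 * (cexp (((ξ * S : ℝ) : ℂ) * I) - 1)) *
                ((Real.exp (-b * ξ ^ 2) : ℝ) : ℂ) := by ring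
          rw [h3, norm_mul, Complex.norm_real, Real.norm_of_nonneg (Real.exp_pos _).le]
          have h4 : ‖(G ξ - G 0) * cexp (((ξ * S : ℝ) : ℂ) * I) + G 0 * (cexp (((ξ * S : ℝ) : ℂ) * I) - 1)‖ ≤
              (ω + B * ξ ^ 2) + ‖G 0‖ * (|ξ| * |S|) := by
            refine (norm_add_le _ _).trans (add_le_add ?_ ?_)
            · rw [norm_mul, Complex.norm_exp_ofReal_mul_I, mul_one]
              exact h1
            · rw [norm_mul]
              exact mul_le_mul_of_nonneg_left h2 (norm_nonneg _)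
          calc _ ≤ ((ω + B * ξ ^ 2) + ‖G 0‖ * (|ξ| * |S|)) * Real.exp (-b * ξ ^ 2) :=
                mul_le_mul_of_nonneg_right h4 (Real.exp_pos _).le
            _ = _ := by ring
      _ ≤ ∫ ξ : ℝ, (ω * Real.exp (-b * ξ ^ 2) + B * (ξ ^ 2 * Real.exp (-b * ξ ^ 2)) +
          ‖G 0‖ * |S| * (|ξ| * Real.exp (-b * ξ ^ 2))) :=
          setIntegral_le_integral (((i3.const_mul ω).add (i1.const_mul B)).add (i2.const_mul (‖G 0‖ * |S|)))
            (Eventually.of_forall fun ξ => by positivity)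
      _ = _ := by
          have e1 : ∫ ξ : ℝ, (ω * Real.exp (-b * ξ ^ 2) + B * (ξ ^ 2 * Real.exp (-b * ξ ^ 2)) +
              ‖G 0‖ * |S| * (|ξ| * Real.exp (-b * ξ ^ 2))) =
              (∫ ξ : ℝ, (ω * Real.exp (-b * ξ ^ 2) + B * (ξ ^ 2 * Real.exp (-b * ξ ^ 2)))) +
              ∫ ξ : ℝ, ‖G 0‖ * |S| * (|ξ| * Real.exp (-b * ξ ^ 2)) :=
            integral_add ((i3.const_mul ω).add (i1.const_mul B)) (i2.const_mul (‖G 0‖ * |S|))
          rw [e1, integral_add (i3.const_mul ω) (i1.const_mul B), integral_const_mul, integral_const_mul,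
            integral_const_mul, i3', i1', i2']
  have t4 : (∫ ξ in Set.Icc (-R) R, G 0 * ((Real.exp (-b * ξ ^ 2) : ℝ) : ℂ)).re =
      (G 0).re * ∫ ξ in Set.Icc (-R) R, Real.exp (-b * ξ ^ 2) := by
    rw [integral_const_mul, integral_complex_ofReal, Complex.re_mul_ofReal]
  have t5 := (Complex.abs_re_le_norm _).trans t3
  rw [Complex.sub_re, t4, abs_le] at t5
  have t6 := mul_le_mul_of_nonneg_left t2 hG0
  have t7 : 1 / b = q / Real.sqrt (Real.pi * b) := by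
    have hpb : 0 < Real.sqrt (Real.pi * b) := Real.sqrt_pos.2 (by positivity)
    rw [eq_div_iff hpb.ne', hq, Real.sqrt_div Real.pi_pos.le, Real.sqrt_mul Real.pi_pos.le]
    have hb' : 0 < Real.sqrt b := Real.sqrt_pos.2 hb
    have hp' : 0 < Real.sqrt Real.pi := Real.sqrt_pos.2 Real.pi_pos
    have : Real.sqrt b * Real.sqrt b = b := Real.mul_self_sqrt hb.le
    field_simp
    linarith
  rw [t7] at t5
  have t8 : q * ((G 0).re * (1 - 1 / (2 * b * R ^ 2)) - ω - B / (2 * b) -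
      ‖G 0‖ * |S| / Real.sqrt (Real.pi * b)) = (G 0).re * (q - q / (2 * b) / R ^ 2) -
      (ω * q + B * (q / (2 * b)) + ‖G 0‖ * |S| * (q / Real.sqrt (Real.pi * b))) := by
    have : q / (2 * b) / R ^ 2 = q * (1 / (2 * b * R ^ 2)) := by
      rw [div_div, mul_one_div]
    rw [this]
    ring
  rw [t8]
  linarith [t5.1]

end Pool.Agent.V5helper76.EG.LdA
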