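import Pool.Agent.V5helper7.PL.FB

set_option autoImplicit false

/-! A minorant for the measure of the points where a function is large (project EG, job LDS; helper76) -/

namespace Pool.Agent.V5helper76.EG.LdB

open Finset Filter MeasureTheory Topology Complex
open Pool.Agent.V5helper7.PL.FB

/-- the measure of the points where a function is large, lower bound -/
theorem key {N : Set ℝ} (hN : MeasurableSet N) {X : ℝ} (hNX : N ⊆ Set.Icc 0 X) {z : ℝ → ℝ}
    (hz : Continuous z) (hz0 : ∀ t ∈ N, 0 < z t)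
    {V c R : ℝ} (hV : 0 < V) (hc : 0 < c) {φ : ℝ → ℂ} (hφ : Continuous φ)
    {m : ℝ → ℝ} (hm0 : ∀ x, x ≤ 0 → m x ≤ 0) (hm1 : ∀ x, 0 < x → m x ≤ Real.exp (-(2 * V * x)))
    (hm2 : ∀ x : ℝ, ((m x : ℝ) : ℂ) = ∫ ξ in Set.Icc (-R) R, φ ξ * cexp (((ξ * x : ℝ) : ℂ) * I)) :
    Integrable (fun ξ => ∫ t in N, U V c φ ξ (z t)) (volume.restrict (Set.Icc (-R) R)) ∧
    (∫ ξ in Set.Icc (-R) R, ∫ t in N, U V c φ ξ (z t)).re ≤ volume.real (N ∩ {t | c < z t}) := by
  set μ := volume.restrict (Set.Icc (-R) R) with hμ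
  have hNfin : volume N < ⊤ := (measure_mono hNX).trans_lt (by
    rw [Real.volume_Icc]
    exact ENNReal.ofReal_lt_top)
  have : IsFiniteMeasure (volume.restrict N) := ⟨by rwa [Measure.restrict_apply_univ]⟩
  have : IsFiniteMeasure μ := ⟨by
    rw [hμ, Measure.restrict_apply_univ, Real.volume_Icc]
    exact ENNReal.ofReal_lt_top⟩
  -- bounds
  obtain ⟨M, hM⟩ := (isCompact_Icc (a := (0:ℝ)) (b := X)).exists_bound_of_continuousOn hz.continuousOn
  obtain ⟨Φ, hΦ⟩ := (isCompact_Icc (a := (-R)) (b := R)).exists_bound_of_continuousOn hφ.continuousOn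
  -- the function on the product
  set F : ℝ × ℝ → ℂ := fun p => U V c φ p.2 (z p.1) with hF
  have hFm : Measurable F := U_meas hφ.measurable measurable_snd (hz.measurable.comp measurable_fst)
  have hFb : ∀ t ∈ N, ∀ ξ ∈ Set.Icc (-R) R, ‖F (t, ξ)‖ ≤ |Φ| * (|M| / c) ^ (2 * V) := by
    intro t ht ξ hξ
    simp only [hF]
    rw [norm_U hc (hz0 t ht).le]
    have b1 : z t ≤ |M| := ((le_abs_self _).trans (hM t (hNX ht))).trans (le_abs_self _)
    have b3 := (hΦ ξ hξ).trans (le_abs_self Φ)
    have b5 := hz0 t ht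
    gcongr
  have hFi : Integrable F ((volume.restrict N).prod μ) := by
    refine Integrable.of_bound hFm.aestronglyMeasurable (|Φ| * (|M| / c) ^ (2 * V)) ?_
    have e1 : (volume.restrict N).prod μ =
        ((volume : Measure ℝ).prod (volume : Measure ℝ)).restrict (N ×ˢ (Set.Icc (-R) R)) := by
      rw [hμ, Measure.prod_restrict]
    rw [e1]
    filter_upwards [ae_restrict_mem (hN.prod measurableSet_Icc)] with p hp
    exact hFb p.1 hp.1 p.2 hp.2
  -- the minorant
  set W : ℝ → ℝ := fun t => (z t / c) ^ (2 * V) * m (Real.log (z t / c)) with hW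
  have hW1 : ∀ t, ((W t : ℝ) : ℂ) = ∫ ξ, F (t, ξ) ∂μ := by
    intro t
    simp only [hF, hW]
    rw [Complex.ofReal_mul, hm2, ← integral_const_mul]
    refine integral_congr_ae (Eventually.of_forall fun ξ => ?_)
    simp only [U]
    ring
  have hWi : Integrable (fun t => ((W t : ℝ) : ℂ)) (volume.restrict N) := by
    simp_rw [hW1]
    exact hFi.integral_prod_left
  have hWr : Integrable W (volume.restrict N) := by
    have := hWi.re
    simpa using this
  have hone : ∀ x : ℝ, c < x → (x / c) ^ (2 * V) * m (Real.log (x / c)) ≤ 1 := by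
    intro x hx
    have hx0 : 0 < x := hc.trans hx
    have hxc : 1 < x / c := by rwa [one_lt_div hc]
    have hl : 0 < Real.log (x / c) := Real.log_pos hxc
    have h5 := hm1 _ hl
    have h6 : (x / c) ^ (2 * V) = Real.exp (2 * V * Real.log (x / c)) := by
      rw [Real.rpow_def_of_pos (by positivity)]
      congr 1
      ring
    calc _ ≤ Real.exp (2 * V * Real.log (x / c)) * Real.exp (-(2 * V * Real.log (x / c))) := by
          rw [h6]
          exact mul_le_mul_of_nonneg_left h5 (Real.exp_pos _).le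
      _ = (1 : ℝ) := by rw [← Real.exp_add, add_neg_cancel, Real.exp_zero]
  have hneg : ∀ x : ℝ, 0 < x → x ≤ c → (x / c) ^ (2 * V) * m (Real.log (x / c)) ≤ 0 := by
    intro x hx0 hx
    have hxc : x / c ≤ 1 := by rwa [div_le_one hc]
    have hl : Real.log (x / c) ≤ 0 := Real.log_nonpos (by positivity) hxc
    exact mul_nonpos_of_nonneg_of_nonpos (by positivity) (hm0 _ hl)
  have hSm : MeasurableSet {t | c < z t} := measurableSet_lt measurable_const hz.measurable
  have step1 : ∫ t in N, W t ≤ volume.real (N ∩ {t | c < z t}) := by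
    have d1 : volume.real (N ∩ {t | c < z t}) = ∫ t in N, ({t | c < z t}.indicator (fun _ => (1:ℝ)) t) := by
      rw [integral_indicator hSm, Measure.restrict_restrict hSm, setIntegral_const, smul_eq_mul, mul_one,
        Set.inter_comm]
    rw [d1]
    refine integral_mono_ae hWr ((integrable_const (1:ℝ)).indicator hSm) ?_
    filter_upwards [ae_restrict_mem hN] with t ht
    by_cases hS : t ∈ {t | c < z t}
    · rw [Set.indicator_of_mem hS]
      exact hone _ hS
    · rw [Set.indicator_of_notMem hS]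
      exact hneg _ (hz0 t ht) (not_lt.1 hS)
  have step3 : ∫ t in N, ((W t : ℝ) : ℂ) = ∫ ξ, (∫ t in N, F (t, ξ)) ∂μ := by
    simp_rw [hW1]
    exact integral_integral_swap hFi
  refine ⟨hFi.integral_prod_right, ?_⟩
  have step4 : (∫ ξ, (∫ t in N, U V c φ ξ (z t)) ∂μ).re = ∫ t in N, W t := by
    have : (∫ ξ, (∫ t in N, U V c φ ξ (z t)) ∂μ) = ∫ t in N, ((W t : ℝ) : ℂ) := step3.symm
    rw [this, integral_complex_ofReal, Complex.ofReal_re]
  rw [step4]
  exact step1

end Pool.Agent.V5helper76.EG.LdB
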