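import Pool.Agent.V5helper51.EG.Stm
import Pool.Agent.V5helper7.PL.FD
import Pool.Agent.N748.MG.CONT
import Pool.Agent.N748.MG.TMA
import Pool.Agent.V5helper76.EG.LdA
import Pool.Agent.V5helper76.EG.LdB

set_option autoImplicit false

/-! project EG, job LDS: the lower bound for the proportion of the large values, uniform in the level (helper76) -/

namespace Pool.Agent.V5helper76.EG

open Finset Filter MeasureTheory Topology Complex
open Pool.Agent.N748.MG Pool.Agent.N748.MJ Pool.Agent.V5helper51.PL Pool.Agent.V5helper51.EG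
open Pool.Agent.V5helper7.PL

/-- the deterministic part -/
theorem lds_det {V c R R1 ε1 Φ B ω δ X : ℝ} (hV : 0 < V) (hc : 0 < c) (hR : 0 < R) (hR1 : V + R ≤ R1)
    (hε1 : 0 ≤ ε1) (hB : 0 ≤ B) (hω : 0 ≤ ω) (hδ : 0 < δ) (hδ1 : δ ≤ 1 / 16) (hX : 0 ≤ X)
    {φ : ℝ → ℂ} {m : ℝ → ℝ} (hφ : Continuous φ) (hm0 : ∀ x, x ≤ 0 → m x ≤ 0)
    (hm1 : ∀ x, 0 < x → m x ≤ Real.exp (-(2 * V * x)))
    (hm2 : ∀ x : ℝ, ((m x : ℝ) : ℂ) = ∫ ξ in Set.Icc (-R) R, φ ξ * Complex.exp (((ξ * x : ℝ) : ℂ) * I))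
    (hΦ : ∀ ξ, |ξ| ≤ R → ‖φ ξ‖ ≤ Φ) (haC : Continuous aC)
    {r : ℝ} (hr : aC V = r) (hr0 : 0 ≤ r) (hφ0 : 0 ≤ (φ 0).re)
    (hG : ∀ ξ : ℝ, |ξ| ≤ R → ‖φ ξ * aC ((V : ℂ) + ξ / 2 * I) - φ 0 * aC V‖ ≤ ω + B * ξ ^ 2)
    {N : Set ℝ} (hN : MeasurableSet N) (hNX : N ⊆ Set.Icc 0 X) (hnz : ∀ t ∈ N, riemannZeta (pw δ t) ≠ 0)
    (hM : ∀ s : ℂ, ‖s‖ ≤ R1 → ‖((2 * δ : ℝ) : ℂ) ^ (s ^ 2) * (∫ t in N, ((‖riemannZeta (pw δ t)‖ : ℝ) : ℂ) ^ (2 * s)) -
      X * aC s‖ ≤ ε1 * X) :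
    X * (c ^ (-(2 * V)) * (2 * δ) ^ (-V ^ 2) * (Real.sqrt (4 * Real.pi / Real.log (1 / (2 * δ))) *
      (r * (φ 0).re * (1 - 2 / (Real.log (1 / (2 * δ)) * R ^ 2)) - ω - 2 * B / Real.log (1 / (2 * δ)) -
        r * ‖φ 0‖ * |V * Real.log (1 / (2 * δ)) - Real.log c| * 2 / Real.sqrt (Real.pi * Real.log (1 / (2 * δ))) -
        Φ * ε1))) ≤ volume.real (N ∩ {t | c < mz δ t}) := by
  set l := Real.log (1 / (2 * δ)) with hl
  have h2δ : 0 < 2 * δ := by linarith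
  have hl0 : 0 < l := by
    apply Real.log_pos
    rw [lt_div_iff₀ h2δ]
    linarith
  set S := V * l - Real.log c with hS
  set b := l / 4 with hb
  have hb0 : 0 < b := by positivity
  have hz : Continuous fun t : ℝ => mz δ t := TMA.cont hδ1
  have hz0 : ∀ t ∈ N, 0 < mz δ t := fun t ht => norm_pos_iff.2 (hnz t ht)
  have hΦ0 : 0 ≤ Φ := (norm_nonneg _).trans (hΦ 0 (by simpa using hR.le))
  obtain ⟨k1, k2⟩ := LdB.key hN hNX hz hz0 hV hc hφ hm0 hm1 hm2
  refine le_trans ?_ k2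
  set G : ℝ → ℂ := fun ξ => φ ξ * aC ((V : ℂ) + ξ / 2 * I) with hGd
  have hGc : Continuous G := hφ.mul (haC.comp (by fun_prop))
  have hG0 : G 0 = φ 0 * r := by
    simp only [hGd, Complex.ofReal_zero, zero_div, zero_mul, add_zero, hr]
  have hG0re : (G 0).re = r * (φ 0).re := by
    rw [hG0, Complex.re_mul_ofReal]
    ring
  have hG0n : ‖G 0‖ = r * ‖φ 0‖ := by
    rw [hG0, norm_mul, Complex.norm_real, Real.norm_of_nonneg hr0]
    ring
  have g1 := LdA.gauss_low (G := G) (S := S) hGc hR hb0 hB hω (by rw [hG0re]; positivity) (by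
    intro ξ hξ
    have := hG ξ hξ
    rw [hG0, ← hr]
    exact this)
  rw [hG0re, hG0n] at g1
  set E : ℝ := c ^ (-(2 * V)) * (2 * δ) ^ (-V ^ 2) with hE
  have hE0 : 0 < E := by positivity
  -- the comparison
  have cE : Continuous fun ξ : ℝ => ((Real.exp (-b * ξ ^ 2) : ℝ) : ℂ) := by fun_prop
  have cP : Continuous fun ξ : ℝ => cexp (((ξ * S : ℝ) : ℂ) * I) := by fun_prop
  have j1 : IntegrableOn (fun ξ : ℝ => ((E * X : ℝ) : ℂ) *
      (G ξ * cexp (((ξ * S : ℝ) : ℂ) * I) * ((Real.exp (-b * ξ ^ 2) : ℝ) : ℂ))) (Set.Icc (-R) R) :=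
    (continuous_const.mul ((hGc.mul cP).mul cE)).integrableOn_Icc
  have i3 := integrable_exp_neg_mul_sq hb0
  have i3' := integral_gaussian b
  have cmp : ∀ ξ ∈ Set.Icc (-R) R, ‖(∫ t in N, FB.U V c φ ξ (mz δ t)) - ((E * X : ℝ) : ℂ) *
      (G ξ * cexp (((ξ * S : ℝ) : ℂ) * I) * ((Real.exp (-b * ξ ^ 2) : ℝ) : ℂ))‖ ≤
      (E * X * (Φ * ε1)) * Real.exp (-b * ξ ^ 2) := by
    intro ξ hξ
    have hξ' : |ξ| ≤ R := abs_le.2 hξ
    set s : ℂ := (V : ℂ) + ξ / 2 * I with hs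
    have hsn : ‖s‖ ≤ R1 := by
      refine le_trans ((norm_add_le _ _).trans ?_) hR1
      have h1 : ‖(ξ : ℂ) / 2 * I‖ = |ξ| / 2 := by
        rw [norm_mul, Complex.norm_I, mul_one, norm_div, Complex.norm_real, Real.norm_eq_abs]
        simp
      rw [h1, Complex.norm_real, Real.norm_of_nonneg hV.le]
      have := abs_nonneg ξ
      linarith
    have m1 := hM s hsn
    set J := ∫ t in N, ((‖riemannZeta (pw δ t)‖ : ℝ) : ℂ) ^ (2 * s) with hJ
    set K : ℂ := φ ξ * (((c ^ (-(2 * V)) : ℝ) : ℂ) * cexp (((-(ξ * Real.log c) : ℝ) : ℂ) * I)) with hK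
    have e1 : ∫ t in N, FB.U V c φ ξ (mz δ t) = K * J := by
      rw [hJ, ← integral_const_mul]
      refine setIntegral_congr_fun hN fun t ht => ?_
      rw [FB.U_eq hc (hz0 t ht)]
      rfl
    -- the power
    set P : ℂ := ((2 * δ : ℝ) : ℂ) ^ (s ^ 2) with hP
    have h2c : ((2 * δ : ℝ) : ℂ) ≠ 0 := by exact_mod_cast h2δ.ne'
    have hlog : Complex.log ((2 * δ : ℝ) : ℂ) = ((-l : ℝ) : ℂ) := by
      rw [← Complex.ofReal_log h2δ.le, hl, one_div, Real.log_inv]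
      simp
    have hPe : P = cexp (-(l : ℂ) * s ^ 2) := by
      rw [hP, Complex.cpow_def_of_ne_zero h2c, hlog]
      push_cast
      ring_nf
    have hP0 : P ≠ 0 := by rw [hPe]; exact Complex.exp_ne_zero _
    have hpw : (2 * δ) ^ (-V ^ 2) = Real.exp (l * V ^ 2) := by
      rw [Real.rpow_def_of_pos h2δ]
      congr 1
      rw [hl, one_div, Real.log_inv]
      ring
    have hKP : K = φ ξ * (((E : ℝ) : ℂ) * (cexp (((ξ * S : ℝ) : ℂ) * I) * ((Real.exp (-b * ξ ^ 2) : ℝ) : ℂ))) * P := by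
      rw [hK, hPe, hE, hpw]
      have q1 : cexp (((-(ξ * Real.log c) : ℝ) : ℂ) * I) = ((Real.exp (l * V ^ 2) : ℝ) : ℂ) *
          (cexp (((ξ * S : ℝ) : ℂ) * I) * ((Real.exp (-b * ξ ^ 2) : ℝ) : ℂ)) * cexp (-(l : ℂ) * s ^ 2) := by
        rw [Complex.ofReal_exp, Complex.ofReal_exp, ← Complex.exp_add, ← Complex.exp_add, ← Complex.exp_add]
        congr 1
        rw [hs, hS, hb]
        push_cast
        have hI : I ^ 2 = -1 := Complex.I_sq
        have : ((V : ℂ) + ξ / 2 * I) ^ 2 = V ^ 2 + V * ξ * I + ξ ^ 2 / 4 * I ^ 2 := by ring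
        rw [this, hI]
        ring
      rw [q1]
      push_cast
      ring
    have e2 : (∫ t in N, FB.U V c φ ξ (mz δ t)) - ((E * X : ℝ) : ℂ) *
        (G ξ * cexp (((ξ * S : ℝ) : ℂ) * I) * ((Real.exp (-b * ξ ^ 2) : ℝ) : ℂ)) =
        φ ξ * (((E : ℝ) : ℂ) * (cexp (((ξ * S : ℝ) : ℂ) * I) * ((Real.exp (-b * ξ ^ 2) : ℝ) : ℂ))) *
          (P * J - X * aC s) := by
      rw [e1, hKP]
      simp only [hGd]
      rw [← hs]
      push_cast
      ring
    rw [e2, norm_mul, norm_mul, norm_mul, norm_mul, Complex.norm_exp_ofReal_mul_I, Complex.norm_real,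
      Complex.norm_real, Real.norm_of_nonneg hE0.le, Real.norm_of_nonneg (Real.exp_pos _).le]
    calc _ ≤ Φ * (E * (1 * Real.exp (-b * ξ ^ 2))) * (ε1 * X) := by
          refine mul_le_mul (mul_le_mul_of_nonneg_right (hΦ ξ hξ') (by positivity)) m1 (norm_nonneg _) (by positivity)
      _ = _ := by ring
  have t3 : ‖(∫ ξ in Set.Icc (-R) R, ∫ t in N, FB.U V c φ ξ (mz δ t)) - ∫ ξ in Set.Icc (-R) R, ((E * X : ℝ) : ℂ) *
      (G ξ * cexp (((ξ * S : ℝ) : ℂ) * I) * ((Real.exp (-b * ξ ^ 2) : ℝ) : ℂ))‖ ≤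
      (E * X * (Φ * ε1)) * Real.sqrt (Real.pi / b) := by
    rw [← integral_sub k1 j1]
    calc _ ≤ ∫ ξ in Set.Icc (-R) R, (E * X * (Φ * ε1)) * Real.exp (-b * ξ ^ 2) := by
          refine norm_integral_le_of_norm_le (i3.const_mul _).integrableOn ?_
          filter_upwards [ae_restrict_mem measurableSet_Icc] with ξ hξ
          exact cmp ξ hξ
      _ ≤ ∫ ξ : ℝ, (E * X * (Φ * ε1)) * Real.exp (-b * ξ ^ 2) :=
          setIntegral_le_integral (i3.const_mul _) (Eventually.of_forall fun ξ => by positivity)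
      _ = _ := by rw [integral_const_mul, i3']
  rw [integral_const_mul] at t3
  have t5 := (Complex.abs_re_le_norm _).trans t3
  rw [Complex.sub_re, Complex.re_ofReal_mul, abs_le] at t5
  have t6 := mul_le_mul_of_nonneg_left g1 (show 0 ≤ E * X by positivity)
  have u1 : Real.pi / b = 4 * Real.pi / l := by rw [hb]; field_simp
  have u2 : 1 / (2 * b * R ^ 2) = 2 / (l * R ^ 2) := by rw [hb]; field_simp; norm_num
  have u3 : B / (2 * b) = 2 * B / l := by rw [hb]; field_simp; norm_num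
  have u4 : r * ‖φ 0‖ * |S| / Real.sqrt (Real.pi * b) = r * ‖φ 0‖ * |S| * 2 / Real.sqrt (Real.pi * l) := by
    have : Real.sqrt (Real.pi * b) = Real.sqrt (Real.pi * l) / 2 := by
      have h4 : Real.pi * b = (Real.pi * l) / (2 ^ 2) := by rw [hb]; ring
      rw [h4, Real.sqrt_div (by positivity), Real.sqrt_sq (by norm_num)]
    rw [this]
    have : 0 < Real.sqrt (Real.pi * l) := Real.sqrt_pos.2 (by positivity)
    field_simp
  rw [u1, u2, u3, u4] at t6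
  rw [u1] at t5
  have e9 : X * (E * (Real.sqrt (4 * Real.pi / l) *
      (r * (φ 0).re * (1 - 2 / (l * R ^ 2)) - ω - 2 * B / l -
        r * ‖φ 0‖ * |S| * 2 / Real.sqrt (Real.pi * l) - Φ * ε1))) =
      E * X * (Real.sqrt (4 * Real.pi / l) *
      (r * (φ 0).re * (1 - 2 / (l * R ^ 2)) - ω - 2 * B / l -
        r * ‖φ 0‖ * |S| * 2 / Real.sqrt (Real.pi * l))) - E * X * (Φ * ε1) * Real.sqrt (4 * Real.pi / l) := by
    ring
  rw [e9]
  linarith [t5.1]

lemma ev_inv (a : ℝ) {e : ℝ} (he : 0 < e) : ∀ᶠ l : ℝ in atTop, a / l ≤ e := by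
  have h : Tendsto (fun l : ℝ => a / l) atTop (𝓝 0) := tendsto_const_nhds.div_atTop tendsto_id
  exact h.eventually_le_const he

lemma ev_logsqrt (a : ℝ) {e : ℝ} (he : 0 < e) : ∀ᶠ l : ℝ in atTop, a * Real.log l / Real.sqrt (Real.pi * l) ≤ e := by
  have h1 : Tendsto (fun l : ℝ => Real.log l / l ^ ((1:ℝ) / 2)) atTop (𝓝 0) :=
    (isLittleO_log_rpow_atTop (by norm_num : (0:ℝ) < 1 / 2)).tendsto_div_nhds_zero
  have h2 := h1.const_mul (a / Real.sqrt Real.pi)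
  rw [mul_zero] at h2
  filter_upwards [h2.eventually_le_const he, eventually_gt_atTop 0] with l h3 h4
  rw [Real.sqrt_mul Real.pi_pos.le]
  rw [← Real.sqrt_eq_rpow] at h3
  refine le_trans (le_of_eq ?_) h3
  have : 0 < Real.sqrt Real.pi := Real.sqrt_pos.2 Real.pi_pos
  have : 0 < Real.sqrt l := Real.sqrt_pos.2 h4
  field_simp

theorem t_LDS (hC : S_CM) (hM : S_MIN) : S_LDS := by
  intro V A ε hV hA hε
  have hpi := Real.pi_pos
  obtain ⟨r, hr, hrV⟩ := (CON.main).2 V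
  have haC : Continuous aC := (CON.main).1
  set q : ℝ := min ε 1 with hq
  have hq0 : 0 < q := lt_min hε one_pos
  have hq1 : q ≤ 1 := min_le_right _ _
  have hqε : q ≤ ε := min_le_left _ _
  obtain ⟨R, φ, m, hR, hφ, -, hm0, hm1, hm2, hφ0⟩ := hM V (q / (8 * V)) hV (by positivity)
  set κ : ℝ := r / (4 * Real.pi * V) with hκ
  have hκ0 : 0 < κ := by positivity
  have hk1 : κ * (1 - q / 4) ≤ r * (φ 0).re := by
    have h1 : r * (1 / (2 * V) - q / (8 * V)) ≤ r * (2 * Real.pi * (φ 0).re) :=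
      mul_le_mul_of_nonneg_left hφ0 hr.le
    have h2 : κ * (1 - q / 4) = r * (1 / (2 * V) - q / (8 * V)) / (2 * Real.pi) := by
      rw [hκ]
      field_simp
      ring
    rw [h2, div_le_iff₀ (by positivity)]
    linarith
  have hφre : 0 ≤ (φ 0).re := by
    have h1 : 0 < κ * (1 - q / 4) := mul_pos hκ0 (by linarith)
    have h2 : 0 < r * (φ 0).re := h1.trans_le hk1
    exact (pos_of_mul_pos_right h2 hr.le).le
  obtain ⟨Φ, hΦ⟩ := (isCompact_Icc (a := (-R)) (b := R)).exists_bound_of_continuousOn hφ.continuousOn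
  have hΦ0 : 0 ≤ Φ := (norm_nonneg _).trans (hΦ 0 ⟨by linarith, hR.le⟩)
  set ε1 : ℝ := q * κ / (8 * (Φ + 1)) with hε1
  have hε10 : 0 < ε1 := by positivity
  have hΦε : Φ * ε1 ≤ q * κ / 8 := by
    rw [hε1, mul_div_assoc', div_le_div_iff₀ (by positivity) (by norm_num)]
    nlinarith [mul_pos hq0 hκ0]
  set ω : ℝ := q * κ / 8 with hω
  have hω0 : 0 < ω := by positivity
  set G : ℝ → ℂ := fun ξ => φ ξ * aC ((V : ℂ) + ξ / 2 * I) with hGd
  have hGc : Continuous G := hφ.mul (haC.comp (by fun_prop))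
  have hG0 : G 0 = φ 0 * aC V := by
    simp only [hGd, Complex.ofReal_zero, zero_div, zero_mul, add_zero]
  obtain ⟨Mg, hMg⟩ := (isCompact_Icc (a := (-R)) (b := R)).exists_bound_of_continuousOn hGc.continuousOn
  have hMg0 : 0 ≤ Mg := (norm_nonneg _).trans (hMg 0 ⟨by linarith, hR.le⟩)
  obtain ⟨η, hη, hGη⟩ := Metric.continuousAt_iff.1 (hGc.continuousAt (x := 0)) ω hω0
  set B : ℝ := 2 * Mg / η ^ 2 with hB
  have hB0 : 0 ≤ B := by positivity
  have hGb : ∀ ξ : ℝ, |ξ| ≤ R → ‖φ ξ * aC ((V : ℂ) + ξ / 2 * I) - φ 0 * aC V‖ ≤ ω + B * ξ ^ 2 := by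
    intro ξ hξ
    rw [← hG0]
    by_cases h : |ξ| < η
    · have h1 : dist ξ 0 < η := by rwa [Real.dist_eq, sub_zero]
      have h2 := hGη h1
      rw [dist_eq_norm] at h2
      have h3 : 0 ≤ B * ξ ^ 2 := by positivity
      exact h2.le.trans (by linarith)
    · rw [not_lt] at h
      have h1 : ‖G ξ - G 0‖ ≤ 2 * Mg := by
        refine (norm_sub_le _ _).trans ?_
        have h2 := hMg ξ (abs_le.1 hξ)
        have h3 := hMg 0 ⟨by linarith, hR.le⟩
        linarith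
      have h2 : 2 * Mg ≤ B * ξ ^ 2 := by
        rw [hB, div_mul_eq_mul_div, le_div_iff₀ (by positivity)]
        refine mul_le_mul_of_nonneg_left ?_ (by positivity)
        rw [← sq_abs ξ]
        exact pow_le_pow_left₀ hη.le h 2
      exact h1.trans (by linarith)
  have E1 := hC (V + R) 1 (by positivity) one_pos ε1 hε10
  have E2 := FD.ev_ell (ev_inv (r * (φ 0).re * (2 / R ^ 2)) hω0)
  have E3 := FD.ev_ell (ev_inv (2 * B) hω0)
  have E4 := FD.ev_ell (ev_logsqrt (r * ‖φ 0‖ * A * 2) hω0)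
  refine (E1.and (E2.and (E3.and E4))).mono ?_
  rintro X δ hX1 hδ hδ1 ⟨e1, e2, e3, e4⟩ c hc hcl
  obtain ⟨N, n1, n2, -, n4, n5⟩ := e1
  have hX0 : 0 ≤ X := by linarith
  have key := lds_det (Φ := Φ) (B := B) (ω := ω) (ε1 := ε1) (R1 := V + R) (N := N) hV hc hR le_rfl hε10.le hB0 hω0.le
    hδ hδ1 hX0 hφ hm0 hm1 hm2 (fun ξ hξ => hΦ ξ (abs_le.1 hξ)) haC hrV hr.le hφre hGb n1 n2 n4 n5
  set l := Real.log (1 / (2 * δ)) with hl
  have h2δ : 0 < 2 * δ := by linarith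
  have hl0 : 0 < l := by
    apply Real.log_pos
    rw [lt_div_iff₀ h2δ]
    linarith
  have hsq : 0 < Real.sqrt (Real.pi * l) := Real.sqrt_pos.2 (by positivity)
  have f1 : r * ‖φ 0‖ * |V * l - Real.log c| * 2 / Real.sqrt (Real.pi * l) ≤ ω := by
    refine le_trans ?_ e4
    refine div_le_div_of_nonneg_right ?_ hsq.le
    have h1 : |V * l - Real.log c| ≤ A * Real.log l := by
      rw [abs_sub_comm]
      exact hcl
    calc r * ‖φ 0‖ * |V * l - Real.log c| * 2 ≤ r * ‖φ 0‖ * (A * Real.log l) * 2 := by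
          have : 0 ≤ r * ‖φ 0‖ := by positivity
          have := mul_le_mul_of_nonneg_left h1 this
          linarith
      _ = _ := by ring
  have f2 : r * (φ 0).re * (1 - 2 / (l * R ^ 2)) = r * (φ 0).re - r * (φ 0).re * (2 / R ^ 2) / l := by
    field_simp
  have f3 : κ * (1 - ε) ≤ r * (φ 0).re * (1 - 2 / (l * R ^ 2)) - ω - 2 * B / l -
      r * ‖φ 0‖ * |V * l - Real.log c| * 2 / Real.sqrt (Real.pi * l) - Φ * ε1 := by
    rw [f2]
    have h1 : κ * q ≤ κ * ε := mul_le_mul_of_nonneg_left hqε hκ0.le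
    have h2 : ω = q * κ / 8 := rfl
    have h3 : 0 ≤ q * κ := by positivity
    linarith
  have f4 : nu V δ c = c ^ (-(2 * V)) * (2 * δ) ^ (-V ^ 2) * (Real.sqrt (4 * Real.pi / l) * κ) := by
    unfold nu
    rw [hrV, Complex.ofReal_re, ← hl]
    have h1 : Real.sqrt (4 * Real.pi / l) = 2 * Real.pi / Real.sqrt (Real.pi * l) := by
      rw [eq_div_iff hsq.ne', ← Real.sqrt_mul (by positivity)]
      have : 4 * Real.pi / l * (Real.pi * l) = (2 * Real.pi) ^ 2 := by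
        field_simp
        ring
      rw [this, Real.sqrt_sq (by positivity)]
    rw [h1, hκ]
    field_simp
    ring
  have hfin : volume (N ∩ {t | c < mz δ t}) ≠ ⊤ := by
    refine ne_top_of_le_ne_top ?_ (measure_mono (Set.inter_subset_left.trans n2))
    rw [Real.volume_Icc]
    exact ENNReal.ofReal_ne_top
  calc ENNReal.ofReal (X * ((1 - ε) * nu V δ c)) ≤ ENNReal.ofReal (volume.real (N ∩ {t | c < mz δ t})) := by
        apply ENNReal.ofReal_le_ofReal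
        refine le_trans ?_ key
        refine mul_le_mul_of_nonneg_left ?_ hX0
        rw [f4]
        calc (1 - ε) * (c ^ (-(2 * V)) * (2 * δ) ^ (-V ^ 2) * (Real.sqrt (4 * Real.pi / l) * κ)) =
            c ^ (-(2 * V)) * (2 * δ) ^ (-V ^ 2) * (Real.sqrt (4 * Real.pi / l) * (κ * (1 - ε))) := by ring
          _ ≤ _ := by
            refine mul_le_mul_of_nonneg_left (mul_le_mul_of_nonneg_left f3 (Real.sqrt_nonneg _)) (by positivity)
    _ = volume (N ∩ {t | c < mz δ t}) := ofReal_measureReal hfin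
    _ ≤ _ := by
        refine measure_mono fun t ht => ?_
        exact ⟨(n2 ht.1).1, (n2 ht.1).2, ht.2⟩

end Pool.Agent.V5helper76.EG
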